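import Mathlib

/-!
# Double zeta values `ζ(p, k - p)` with `p / k` near a rational number: the core inequality
-/

set_option autoImplicit false

namespace Pool.Agent.NH24.DZ

open Finset

/-- the size of a pair -/
def sz (a b m n : ℕ) : ℕ := m ^ a * n ^ (b - a)

lemma le_sz {a b m n : ℕ} (ha : 1 ≤ a) (hm : 1 ≤ m) (hn : 1 ≤ n) : m ≤ sz a b m n := by
  unfold sz
  calc m = m ^ 1 * 1 := by ring
    _ ≤ m ^ a * n ^ (b - a) := Nat.mul_le_mul (Nat.pow_le_pow_right hm ha) (Nat.one_le_pow _ _ hn)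

lemma size_le {a b k R K p m n y : ℕ} (ha : 1 ≤ a) (hab : a < b) (hm : 1 ≤ m) (hn : 1 ≤ n)
    (hpk : p ≤ k) (h1 : a * k ≤ b * p + R) (h2 : b * p ≤ a * k + R) (hK : b * K + 3 * b + R ≤ k)
    (hy : y ≤ sz a b m n) : y ^ K * m ^ 3 ≤ m ^ p * n ^ (k - p) := by
  have hb0 : b ≠ 0 := by omega
  rw [← Nat.pow_le_pow_iff_left hb0]
  obtain ⟨r, rfl⟩ : ∃ r, k = R + r := ⟨k - R, by omega⟩
  obtain ⟨e, rfl⟩ : ∃ e, b = a + e := ⟨b - a, by omega⟩
  obtain ⟨q, hq⟩ : ∃ q, R + r = p + q := ⟨R + r - p, by omega⟩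
  have hqe : R + r - p = q := by omega
  have hms := le_sz (b := a + e) ha hm hn
  have he : 1 ≤ e := by omega
  have e1 : a * r ≤ (a + e) * p := by nlinarith
  have e2 : e * r ≤ (a + e) * q := by
    have : (a + e) * (R + r) = (a + e) * p + (a + e) * q := by rw [hq]; ring
    nlinarith
  have e3 : (K + 3) * (a + e) ≤ r := by nlinarith
  calc (y ^ K * m ^ 3) ^ (a + e) ≤ (sz a (a + e) m n ^ K * sz a (a + e) m n ^ 3) ^ (a + e) :=
        Nat.pow_le_pow_left (Nat.mul_le_mul (Nat.pow_le_pow_left hy _) (Nat.pow_le_pow_left hms _)) _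
    _ = sz a (a + e) m n ^ ((K + 3) * (a + e)) := by rw [← pow_add, ← pow_mul]
    _ ≤ sz a (a + e) m n ^ r := Nat.pow_le_pow_right (by omega) e3
    _ = m ^ (a * r) * n ^ (e * r) := by
        unfold sz
        rw [Nat.add_sub_cancel_left, mul_pow, ← pow_mul, ← pow_mul]
    _ ≤ m ^ ((a + e) * p) * n ^ ((a + e) * q) :=
        Nat.mul_le_mul (Nat.pow_le_pow_right hm e1) (Nat.pow_le_pow_right hn e2)
    _ = (m ^ p * n ^ (R + r - p)) ^ (a + e) := by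
        rw [hqe, mul_pow, ← pow_mul, ← pow_mul, mul_comm p, mul_comm q]

lemma dvd_size {a b k R C p m n : ℕ} (ha : 1 ≤ a) (hab : a < b)
    (hpk : p ≤ k) (h1 : a * k ≤ b * p + R) (h2 : b * p ≤ a * k + R) (hC : k + R ≤ b * C) :
    m ^ p * n ^ (k - p) ∣ sz a b m n ^ C := by
  have hb0 : b ≠ 0 := by omega
  rw [← Nat.pow_dvd_pow_iff hb0]
  obtain ⟨e, rfl⟩ : ∃ e, b = a + e := ⟨b - a, by omega⟩
  obtain ⟨q, rfl⟩ : ∃ q, k = p + q := ⟨k - p, by omega⟩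
  have he : 1 ≤ e := by omega
  have e1 : (a + e) * p ≤ a * (p + q + R) := by nlinarith
  have e2 : (a + e) * q ≤ e * (p + q + R) := by nlinarith
  have h3 : (m ^ p * n ^ (p + q - p)) ^ (a + e) ∣ sz a (a + e) m n ^ (p + q + R) := by
    unfold sz
    rw [Nat.add_sub_cancel_left, Nat.add_sub_cancel_left, mul_pow, mul_pow, ← pow_mul, ← pow_mul,
      ← pow_mul, ← pow_mul, mul_comm p, mul_comm q]
    exact Nat.mul_dvd_mul (pow_dvd_pow _ e1) (pow_dvd_pow _ e2)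
  refine h3.trans ?_
  rw [← pow_mul]
  refine pow_dvd_pow _ ?_
  rw [mul_comm]
  exact hC

/-- the coefficients; the term `d ζ(k)` sits on the diagonal -/
def cf (c : ℕ → ℤ) (d : ℤ) (ps p m n : ℕ) : ℤ := if n < m then c p else if p = ps then d else 0

/-- the term of a pair -/
noncomputable def T (S : Finset ℕ) (c : ℕ → ℤ) (d : ℤ) (ps k m n : ℕ) : ℝ :=
  ∑ p ∈ S, (cf c d ps p m n : ℝ) / ((m : ℝ) ^ p * (n : ℝ) ^ (k - p))

/-- the data are bounded -/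
structure Data (a b k R : ℕ) (S : Finset ℕ) (c : ℕ → ℤ) (d : ℤ) (ps : ℕ) (H : ℝ) : Prop where
  ha : 1 ≤ a
  hab : a < b
  hS : ∀ p ∈ S, p ≤ k ∧ a * k ≤ b * p + R ∧ b * p ≤ a * k + R
  hps : ps ∈ S
  hc : ∀ p ∈ S, |(c p : ℝ)| ≤ H
  hd : |(d : ℝ)| ≤ H

section

variable {a b k R : ℕ} {S : Finset ℕ} {c : ℕ → ℤ} {d : ℤ} {ps : ℕ} {H : ℝ}

lemma Data.H0 (h : Data a b k R S c d ps H) : 0 ≤ H := (abs_nonneg _).trans h.hd

lemma Data.cf_le (h : Data a b k R S c d ps H) {p m n : ℕ} (hp : p ∈ S) :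
    |(cf c d ps p m n : ℝ)| ≤ H := by
  unfold cf
  split_ifs
  · exact h.hc p hp
  · exact h.hd
  · simpa using h.H0

lemma T_le (h : Data a b k R S c d ps H) {K m n y : ℕ} (hm : 1 ≤ m) (hn : 1 ≤ n)
    (hK : b * K + 3 * b + R ≤ k) (hy1 : 1 ≤ y) (hy : y ≤ sz a b m n) :
    |T S c d ps k m n| ≤ (S.card : ℝ) * H / ((y : ℝ) ^ K * (m : ℝ) ^ 3) := by
  have hH := h.H0
  have hy0 : (0 : ℝ) < y := by exact_mod_cast hy1
  have hm0 : (0 : ℝ) < m := by exact_mod_cast hm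
  have hn0 : (0 : ℝ) < n := by exact_mod_cast hn
  unfold T
  refine (abs_sum_le_sum_abs _ _).trans ?_
  calc ∑ p ∈ S, |(cf c d ps p m n : ℝ) / ((m : ℝ) ^ p * (n : ℝ) ^ (k - p))|
      ≤ ∑ p ∈ S, H / ((y : ℝ) ^ K * (m : ℝ) ^ 3) := by
        refine sum_le_sum fun p hp => ?_
        obtain ⟨h1, h2, h3⟩ := h.hS p hp
        have h4 := size_le h.ha h.hab hm hn h1 h2 h3 hK hy
        have h5 : (y : ℝ) ^ K * (m : ℝ) ^ 3 ≤ (m : ℝ) ^ p * (n : ℝ) ^ (k - p) := by exact_mod_cast h4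
        rw [abs_div, abs_of_pos (by positivity : (0 : ℝ) < (m : ℝ) ^ p * (n : ℝ) ^ (k - p))]
        exact div_le_div₀ hH (h.cf_le hp) (by positivity) h5
    _ = (S.card : ℝ) * H / ((y : ℝ) ^ K * (m : ℝ) ^ 3) := by
        rw [sum_const, nsmul_eq_mul]
        ring

lemma T_int (h : Data a b k R S c d ps H) {C m n : ℕ} (hm : 1 ≤ m) (hn : 1 ≤ n)
    (hC : k + R ≤ b * C) : ∃ z : ℤ, T S c d ps k m n * (sz a b m n : ℝ) ^ C = z := by
  have hm0 : (0 : ℝ) < m := by exact_mod_cast hm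
  have hn0 : (0 : ℝ) < n := by exact_mod_cast hn
  have h1 : ∀ p ∈ S, ∃ z : ℤ, (cf c d ps p m n : ℝ) / ((m : ℝ) ^ p * (n : ℝ) ^ (k - p)) *
      (sz a b m n : ℝ) ^ C = z := by
    intro p hp
    obtain ⟨h1, h2, h3⟩ := h.hS p hp
    obtain ⟨q, hq⟩ := dvd_size (m := m) (n := n) h.ha h.hab h1 h2 h3 hC
    refine ⟨cf c d ps p m n * q, ?_⟩
    have h4 : (sz a b m n : ℝ) ^ C = (m : ℝ) ^ p * (n : ℝ) ^ (k - p) * q := by exact_mod_cast hq
    rw [h4]
    push_cast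
    field_simp
  choose! z hz using h1
  refine ⟨∑ p ∈ S, z p, ?_⟩
  unfold T
  rw [sum_mul]
  push_cast
  exact sum_congr rfl hz

/-- the pairs in a box -/
def PP (B : ℕ) : Finset (ℕ × ℕ) := ((Icc 1 B) ×ˢ (Icc 1 B)).filter fun z => z.2 ≤ z.1

/-- the sum of the terms of size `x` -/
noncomputable def AA (a b : ℕ) (S : Finset ℕ) (c : ℕ → ℤ) (d : ℤ) (ps k B x : ℕ) : ℝ :=
  ∑ z ∈ (PP B).filter (fun z => sz a b z.1 z.2 = x), T S c d ps k z.1 z.2

lemma mem_PP {B : ℕ} {z : ℕ × ℕ} : z ∈ PP B ↔ 1 ≤ z.1 ∧ z.1 ≤ B ∧ 1 ≤ z.2 ∧ z.2 ≤ z.1 := by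
  unfold PP
  rw [mem_filter, mem_product, mem_Icc, mem_Icc]
  omega

lemma AA_int (h : Data a b k R S c d ps H) {C B x : ℕ} (hC : k + R ≤ b * C) :
    ∃ z : ℤ, AA a b S c d ps k B x * (x : ℝ) ^ C = z := by
  have h1 : ∀ z ∈ (PP B).filter (fun z => sz a b z.1 z.2 = x), ∃ w : ℤ,
      T S c d ps k z.1 z.2 * (x : ℝ) ^ C = w := by
    intro z hz
    rw [mem_filter, mem_PP] at hz
    obtain ⟨w, hw⟩ := T_int h hz.1.1 hz.1.2.2.1 hC
    rw [hz.2] at hw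
    exact ⟨w, hw⟩
  choose! w hw using h1
  refine ⟨∑ z ∈ (PP B).filter (fun z => sz a b z.1 z.2 = x), w z, ?_⟩
  unfold AA
  rw [sum_mul]
  push_cast
  exact sum_congr rfl hw

lemma AA_low (h : Data a b k R S c d ps H) {C B x : ℕ} (hC : k + R ≤ b * C) (hx : 1 ≤ x)
    (hA : AA a b S c d ps k B x ≠ 0) : 1 / (x : ℝ) ^ C ≤ |AA a b S c d ps k B x| := by
  obtain ⟨z, hz⟩ := AA_int (B := B) (x := x) h hC
  have hx0 : (0 : ℝ) < (x : ℝ) ^ C := by positivity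
  have hz0 : z ≠ 0 := by
    rintro rfl
    rw [Int.cast_zero, mul_eq_zero] at hz
    exact hz.elim hA hx0.ne'
  have h1 : (1 : ℝ) ≤ |(z : ℝ)| := by
    rw [← Int.cast_abs]
    exact_mod_cast Int.one_le_abs hz0
  rw [← hz, abs_mul, abs_of_pos hx0] at h1
  rw [div_le_iff₀ hx0]
  exact h1

/-- the sum over the smaller argument -/
noncomputable def G (S : Finset ℕ) (c : ℕ → ℤ) (d : ℤ) (ps k m : ℕ) : ℝ :=
  ∑ n ∈ Icc 1 m, T S c d ps k m n

/-- the part of size at most `x` -/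
noncomputable def G1 (a b : ℕ) (S : Finset ℕ) (c : ℕ → ℤ) (d : ℤ) (ps k x m : ℕ) : ℝ :=
  ∑ n ∈ (Icc 1 m).filter (fun n => sz a b m n ≤ x), T S c d ps k m n

/-- the part of size larger than `x` -/
noncomputable def G2 (a b : ℕ) (S : Finset ℕ) (c : ℕ → ℤ) (d : ℤ) (ps k x m : ℕ) : ℝ :=
  ∑ n ∈ (Icc 1 m).filter (fun n => ¬ sz a b m n ≤ x), T S c d ps k m n

lemma G_split (x m : ℕ) : G S c d ps k m = G1 a b S c d ps k x m + G2 a b S c d ps k x m := by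
  unfold G G1 G2
  rw [sum_filter_add_sum_filter_not]

lemma G2_le (h : Data a b k R S c d ps H) {K x m : ℕ} (hm : 1 ≤ m)
    (hK : b * K + 3 * b + R ≤ k) : |G2 a b S c d ps k x m| ≤
      (S.card : ℝ) * H / ((x : ℝ) + 1) ^ K * (1 / (m : ℝ) ^ 2) := by
  have hH := h.H0
  have hm0 : (0 : ℝ) < m := by exact_mod_cast hm
  unfold G2
  refine (abs_sum_le_sum_abs _ _).trans ?_
  calc ∑ n ∈ (Icc 1 m).filter (fun n => ¬ sz a b m n ≤ x), |T S c d ps k m n|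
      ≤ ∑ n ∈ (Icc 1 m).filter (fun n => ¬ sz a b m n ≤ x),
          (S.card : ℝ) * H / (((x + 1 : ℕ) : ℝ) ^ K * (m : ℝ) ^ 3) := by
        refine sum_le_sum fun n hn => ?_
        rw [mem_filter, mem_Icc] at hn
        exact T_le h hm hn.1.1 hK (by omega) (by omega)
    _ ≤ ∑ n ∈ Icc 1 m, (S.card : ℝ) * H / (((x + 1 : ℕ) : ℝ) ^ K * (m : ℝ) ^ 3) :=
        sum_le_sum_of_subset_of_nonneg (filter_subset _ _) fun _ _ _ => by positivity
    _ = (S.card : ℝ) * H / ((x : ℝ) + 1) ^ K * (1 / (m : ℝ) ^ 2) := by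
        rw [sum_const, nsmul_eq_mul, Nat.card_Icc, Nat.add_sub_cancel]
        push_cast
        field_simp

lemma sum_inv_sq : (∑' m : ℕ, 1 / ((m + 1 : ℕ) : ℝ) ^ 2) ≤ 2 := by
  have h1 : HasSum (fun n : ℕ => 1 / (n : ℝ) ^ 2) (Real.pi ^ 2 / 6) := hasSum_zeta_two
  have h2 : (∑' m : ℕ, 1 / ((m + 1 : ℕ) : ℝ) ^ 2) = Real.pi ^ 2 / 6 := by
    have h3 := h1.summable.tsum_eq_zero_add
    rw [h1.tsum_eq] at h3
    simp only [Nat.cast_zero] at h3
    rw [h3]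
    norm_num
  rw [h2]
  have h4 := Real.pi_lt_d2
  have h5 := Real.pi_pos
  nlinarith

lemma summable_inv_sq : Summable fun m : ℕ => 1 / ((m + 1 : ℕ) : ℝ) ^ 2 :=
  (summable_nat_add_iff 1).2 (Real.summable_one_div_nat_pow.2 (by norm_num))

lemma G1_zero (h : Data a b k R S c d ps H) {x m : ℕ} (hm : 1 ≤ m) (hx : x < m) :
    G1 a b S c d ps k x m = 0 := by
  unfold G1
  rw [filter_false_of_mem, sum_empty]
  intro n hn
  rw [mem_Icc] at hn
  have := le_sz (b := b) h.ha hm hn.1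
  omega

lemma sum_G1 (h : Data a b k R S c d ps H) {x B : ℕ} (hx : x ≤ B) :
    ∑ m ∈ range B, G1 a b S c d ps k x (m + 1) = ∑ y ∈ Icc 1 x, AA a b S c d ps k B y := by
  have h1 : ∑ m ∈ range B, G1 a b S c d ps k x (m + 1) =
      ∑ z ∈ (PP B).filter (fun z => sz a b z.1 z.2 ≤ x), T S c d ps k z.1 z.2 := by
    have h2 : ∑ m ∈ range B, G1 a b S c d ps k x (m + 1) = ∑ m ∈ Icc 1 B, G1 a b S c d ps k x m := by
      rw [← Finset.sum_image (g := fun m => m + 1) (f := fun m => G1 a b S c d ps k x m)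
        (fun i _ j _ h => by simpa using h)]
      refine sum_congr ?_ fun _ _ => rfl
      ext m
      rw [mem_image, mem_Icc]
      constructor
      · rintro ⟨i, hi, rfl⟩
        rw [mem_range] at hi
        omega
      · intro hm
        exact ⟨m - 1, by rw [mem_range]; omega, by omega⟩
    rw [h2]
    unfold G1
    rw [Finset.sum_sigma']
    refine Finset.sum_nbij' (fun z => (z.1, z.2)) (fun z => ⟨z.1, z.2⟩) ?_ ?_ ?_ ?_ ?_
    · intro z hz
      simp only [mem_sigma, mem_filter, mem_Icc] at hz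
      simp only [mem_filter, mem_PP]
      omega
    · intro z hz
      simp only [mem_filter, mem_PP] at hz
      simp only [mem_sigma, mem_filter, mem_Icc]
      omega
    · intro z _
      rfl
    · intro z _
      rfl
    · intro z _
      rfl
  rw [h1]
  unfold AA
  have h3 : ∀ z ∈ (PP B).filter (fun z => sz a b z.1 z.2 ≤ x), sz a b z.1 z.2 ∈ Icc 1 x := by
    intro z hz
    rw [mem_filter, mem_PP] at hz
    have := le_sz (b := b) h.ha hz.1.1 hz.1.2.2.1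
    rw [mem_Icc]
    omega
  rw [← Finset.sum_fiberwise_of_maps_to h3]
  refine sum_congr rfl fun y hy => ?_
  rw [mem_Icc] at hy
  refine sum_congr ?_ fun _ _ => rfl
  ext z
  simp only [mem_filter]
  constructor
  · rintro ⟨⟨h4, _⟩, h5⟩
    exact ⟨h4, h5⟩
  · rintro ⟨h4, h5⟩
    exact ⟨⟨h4, by omega⟩, h5⟩

/-- the value -/
noncomputable def FF (S : Finset ℕ) (c : ℕ → ℤ) (d : ℤ) (ps k : ℕ) : ℝ :=
  ∑' m : ℕ, G S c d ps k (m + 1)

lemma main_low (h : Data a b k R S c d ps H) {K C x B : ℕ} (hx1 : 1 ≤ x) (hx : x ≤ B)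
    (hK : b * K + 3 * b + R ≤ k) (hC : k + R ≤ b * C)
    (hA0 : ∀ y, 1 ≤ y → y < x → AA a b S c d ps k B y = 0) (hA : AA a b S c d ps k B x ≠ 0)
    (hnum : 4 * (S.card : ℝ) * H * (x : ℝ) ^ C ≤ ((x : ℝ) + 1) ^ K) :
    1 / (2 * (x : ℝ) ^ C) ≤ |FF S c d ps k| := by
  have hH := h.H0
  have hx0 : (0 : ℝ) < x := by exact_mod_cast hx1
  have hs : Summable fun m : ℕ => G2 a b S c d ps k x (m + 1) := by
    refine Summable.of_norm_bounded (summable_inv_sq.mul_left ((S.card : ℝ) * H / ((x : ℝ) + 1) ^ K))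
      fun m => ?_
    rw [Real.norm_eq_abs]
    exact G2_le h (by omega) hK
  have hs1 : ∀ m ∉ range B, G1 a b S c d ps k x (m + 1) = 0 := by
    intro m hm
    rw [mem_range] at hm
    exact G1_zero h (by omega) (by omega)
  have h1 : FF S c d ps k = AA a b S c d ps k B x + ∑' m : ℕ, G2 a b S c d ps k x (m + 1) := by
    unfold FF
    have h2 : ∀ m, G S c d ps k (m + 1) = G1 a b S c d ps k x (m + 1) + G2 a b S c d ps k x (m + 1) :=
      fun m => G_split x (m + 1)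
    rw [tsum_congr h2, Summable.tsum_add (summable_of_hasFiniteSupport
      ((range B).finite_toSet.subset fun m hm => by
        by_contra hcon
        exact hm (hs1 m (by simpa using hcon)))) hs, tsum_eq_sum hs1, sum_G1 h hx]
    congr 1
    rw [← Finset.sum_subset (Finset.singleton_subset_iff.2 (mem_Icc.2 ⟨hx1, le_rfl⟩)), sum_singleton]
    intro y hy hyx
    rw [mem_Icc] at hy
    rw [mem_singleton] at hyx
    exact hA0 y hy.1 (by omega)
  have h3 : |∑' m : ℕ, G2 a b S c d ps k x (m + 1)| ≤ (S.card : ℝ) * H / ((x : ℝ) + 1) ^ K * 2 := by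
    calc |∑' m : ℕ, G2 a b S c d ps k x (m + 1)| ≤ ∑' m : ℕ, |G2 a b S c d ps k x (m + 1)| := by
          have := norm_tsum_le_tsum_norm hs.norm
          simpa only [Real.norm_eq_abs] using this
      _ ≤ ∑' m : ℕ, (S.card : ℝ) * H / ((x : ℝ) + 1) ^ K * (1 / ((m + 1 : ℕ) : ℝ) ^ 2) :=
          Summable.tsum_le_tsum (fun m => G2_le h (by omega) hK) hs.abs (summable_inv_sq.mul_left _)
      _ = (S.card : ℝ) * H / ((x : ℝ) + 1) ^ K * ∑' m : ℕ, 1 / ((m + 1 : ℕ) : ℝ) ^ 2 := tsum_mul_left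
      _ ≤ _ := mul_le_mul_of_nonneg_left sum_inv_sq (by positivity)
  have h4 := AA_low h hC hx1 hA
  have h5 : (S.card : ℝ) * H / ((x : ℝ) + 1) ^ K * 2 ≤ 1 / (2 * (x : ℝ) ^ C) := by
    rw [div_mul_eq_mul_div, div_le_div_iff₀ (by positivity) (by positivity)]
    linarith
  have h6 : 1 / (x : ℝ) ^ C = 1 / (2 * (x : ℝ) ^ C) + 1 / (2 * (x : ℝ) ^ C) := by
    field_simp
    norm_num
  rw [h1]
  have h7 := abs_sub_abs_le_abs_sub (AA a b S c d ps k B x) (-∑' m : ℕ, G2 a b S c d ps k x (m + 1))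
  rw [sub_neg_eq_add, abs_neg] at h7
  linarith

end

end Pool.Agent.NH24.DZ
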