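import Pool.Agent.NH24.DZ.A

/-!
# Double zeta values `ζ(p, k - p)` with `p / k` near a rational number: primes
-/

set_option autoImplicit false

namespace Pool.Agent.NH24.DZ

open Finset

section

variable {a b k R : ℕ} {S : Finset ℕ} {c : ℕ → ℤ} {d : ℤ} {ps : ℕ} {H : ℝ}

lemma prime_pair {l m n : ℕ} (hl : l.Prime) (ha : 1 ≤ a) (hab : a < b) (hn : n ≤ m)
    (h : sz a b m n = l ^ a) : m = l ∧ n = 1 := by
  unfold sz at h
  have h1 : m ∣ l ^ a := h ▸ ((dvd_pow_self m (by omega)).trans (dvd_mul_right _ _))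
  have h2 : n ∣ l ^ a := h ▸ ((dvd_pow_self n (by omega)).trans (dvd_mul_left _ _))
  obtain ⟨i, -, rfl⟩ := (Nat.dvd_prime_pow hl).1 h1
  obtain ⟨j, -, rfl⟩ := (Nat.dvd_prime_pow hl).1 h2
  rw [← pow_mul, ← pow_mul, ← pow_add] at h
  have h3 := Nat.pow_right_injective hl.two_le h
  have h4 : j ≤ i := (Nat.pow_le_pow_iff_right hl.one_lt).1 hn
  rcases Nat.eq_zero_or_pos i with h5 | h5
  · subst h5
    have h6 : j = 0 := by omega
    subst h6
    omega
  · have h6 : i = 1 := by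
      by_contra hcon
      have : 2 ≤ i := by omega
      nlinarith
    subst h6
    have h7 : j * (b - a) = 0 := by omega
    rcases Nat.mul_eq_zero.1 h7 with h8 | h8
    · subst h8
      simp
    · omega

lemma AA_prime (ha : 1 ≤ a) (hab : a < b) {l B : ℕ} (hl : l.Prime) (hB : l ≤ B) :
    AA a b S c d ps k B (l ^ a) = ∑ p ∈ S, (c p : ℝ) / (l : ℝ) ^ p := by
  have h1 : (PP B).filter (fun z => sz a b z.1 z.2 = l ^ a) = {(l, 1)} := by
    ext z
    rw [mem_filter, mem_PP, mem_singleton]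
    constructor
    · rintro ⟨h2, h3⟩
      obtain ⟨h4, h5⟩ := prime_pair hl ha hab h2.2.2.2 h3
      exact Prod.ext h4 h5
    · rintro rfl
      refine ⟨⟨hl.one_le, hB, le_rfl, hl.one_le⟩, ?_⟩
      unfold sz
      simp
  unfold AA
  rw [h1, sum_singleton]
  unfold T cf
  refine sum_congr rfl fun p _ => ?_
  rw [if_pos hl.one_lt]
  simp

/-- the last coefficient is divisible by a prime -/
lemma dvd_last {l : ℕ} (hl : l.Prime) (h0 : ∑ p ∈ S, (c p : ℝ) / (l : ℝ) ^ p = 0) {q : ℕ} (hq : q ∈ S)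
    (hmax : ∀ p ∈ S, q < p → c p = 0) : (l : ℤ) ∣ c q := by
  have hl0 : (0 : ℝ) < l := by exact_mod_cast hl.pos
  have h1 : ∑ p ∈ S, (if p ≤ q then c p * (l : ℤ) ^ (q - p) else 0) = 0 := by
    have h2 : ((∑ p ∈ S, (if p ≤ q then c p * (l : ℤ) ^ (q - p) else 0) : ℤ) : ℝ) =
        (l : ℝ) ^ q * ∑ p ∈ S, (c p : ℝ) / (l : ℝ) ^ p := by
      rw [mul_sum]
      push_cast
      refine sum_congr rfl fun p hp => ?_
      split_ifs with h3
      · push_cast
        rw [mul_div_assoc', eq_div_iff (by positivity), mul_assoc, ← pow_add, Nat.sub_add_cancel h3]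
        ring
      · rw [hmax p hp (by omega)]
        simp
    rw [h0, mul_zero] at h2
    exact_mod_cast h2
  rw [← Finset.add_sum_erase _ _ hq, if_pos le_rfl, Nat.sub_self, pow_zero, mul_one] at h1
  have h3 : (l : ℤ) ∣ ∑ p ∈ S.erase q, (if p ≤ q then c p * (l : ℤ) ^ (q - p) else 0) := by
    refine Finset.dvd_sum fun p hp => ?_
    rw [mem_erase] at hp
    split_ifs with h4
    · exact dvd_mul_of_dvd_right (dvd_pow_self _ (by omega)) _
    · exact dvd_zero _
  have h4 : c q = -∑ p ∈ S.erase q, (if p ≤ q then c p * (l : ℤ) ^ (q - p) else 0) := by omega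
  rw [h4]
  exact (dvd_neg).2 h3

lemma exists_last (hc : ∃ p ∈ S, c p ≠ 0) : ∃ q ∈ S, c q ≠ 0 ∧ ∀ p ∈ S, q < p → c p = 0 := by
  classical
  obtain ⟨q, hq, hmax⟩ := Finset.exists_max_image (S.filter fun p => c p ≠ 0) id (by
    obtain ⟨p, hp, hp0⟩ := hc
    exact ⟨p, mem_filter.2 ⟨hp, hp0⟩⟩)
  rw [mem_filter] at hq
  refine ⟨q, hq.1, hq.2, fun p hp hqp => ?_⟩
  by_contra hcon
  have := hmax p (mem_filter.2 ⟨hp, hcon⟩)
  simp only [id_eq] at this
  omega

/-- if the combination vanishes at all small primes, the primorial is at most the height -/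
lemma primorial_le (hc : ∃ p ∈ S, c p ≠ 0) (hcH : ∀ p ∈ S, |(c p : ℝ)| ≤ H) {L : ℕ}
    (h0 : ∀ l : ℕ, l.Prime → l ≤ L → ∑ p ∈ S, (c p : ℝ) / (l : ℝ) ^ p = 0) :
    (primorial L : ℝ) ≤ H := by
  obtain ⟨q, hq, hq0, hmax⟩ := exists_last hc
  have h1 : primorial L ∣ (c q).natAbs := by
    unfold primorial
    refine Finset.prod_primes_dvd _ (fun p hp => ?_) fun p hp => ?_
    · exact (mem_filter.1 hp).2.prime
    · rw [mem_filter, mem_range] at hp
      exact Int.natCast_dvd.1 (dvd_last hp.2 (h0 p hp.2 (by omega)) hq hmax)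
  have h2 := Nat.le_of_dvd (Int.natAbs_pos.2 hq0) h1
  calc (primorial L : ℝ) ≤ ((c q).natAbs : ℝ) := by exact_mod_cast h2
    _ = |(c q : ℝ)| := by rw [Nat.cast_natAbs, Int.cast_abs]
    _ ≤ H := hcH q hq

/-- if the combination vanishes at all small primes, there are few of them -/
lemma primeCounting_le (hc : ∃ p ∈ S, c p ≠ 0) {p0 W L : ℕ} (hW : ∀ p ∈ S, p0 ≤ p ∧ p ≤ p0 + W)
    (h0 : ∀ l : ℕ, l.Prime → l ≤ L → ∑ p ∈ S, (c p : ℝ) / (l : ℝ) ^ p = 0) :
    Nat.primeCounting L ≤ W := by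
  classical
  obtain ⟨q, hq, hq0⟩ := hc
  set P : Polynomial ℝ := ∑ p ∈ S, Polynomial.monomial (p0 + W - p) (c p : ℝ) with hP
  have hinj : ∀ p ∈ S, p0 + W - p = p0 + W - q → p = q := by
    intro p hp h
    have h1 := hW p hp
    have h2 := hW q hq
    omega
  have hP0 : P ≠ 0 := by
    intro h
    have h1 : P.coeff (p0 + W - q) = c q := by
      rw [hP, Polynomial.finsetSum_coeff, Finset.sum_eq_single q]
      · rw [Polynomial.coeff_monomial, if_pos rfl]
      · intro p hp hne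
        rw [Polynomial.coeff_monomial, if_neg (fun h' => hne (hinj p hp h'))]
      · intro h'
        exact absurd hq h'
    rw [h, Polynomial.coeff_zero] at h1
    exact hq0 (by exact_mod_cast h1.symm)
  have hdeg : P.natDegree ≤ W := by
    refine Polynomial.natDegree_sum_le_of_forall_le _ _ fun p hp => ?_
    refine (Polynomial.natDegree_monomial_le _).trans ?_
    have := hW p hp
    omega
  have hroot : ∀ l : ℕ, l.Prime → l ≤ L → P.eval (l : ℝ) = 0 := by
    intro l hl hlL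
    have hl0 : (0 : ℝ) < l := by exact_mod_cast hl.pos
    rw [hP, Polynomial.eval_finsetSum]
    have h1 := h0 l hl hlL
    have h2 : ∑ p ∈ S, (Polynomial.monomial (p0 + W - p) (c p : ℝ)).eval (l : ℝ) =
        (l : ℝ) ^ (p0 + W) * ∑ p ∈ S, (c p : ℝ) / (l : ℝ) ^ p := by
      rw [mul_sum]
      refine sum_congr rfl fun p hp => ?_
      have h3 := hW p hp
      rw [Polynomial.eval_monomial, mul_div_assoc', eq_div_iff (by positivity), mul_assoc, ← pow_add,
        Nat.sub_add_cancel h3.2]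
      ring
    rw [h2, h1, mul_zero]
  have h1 : ((Finset.range (L + 1)).filter Nat.Prime).image (fun l : ℕ => (l : ℝ)) ⊆
      P.roots.toFinset := by
    intro x hx
    rw [mem_image] at hx
    obtain ⟨l, hl, rfl⟩ := hx
    rw [mem_filter, mem_range] at hl
    rw [Multiset.mem_toFinset, Polynomial.mem_roots hP0]
    exact hroot l hl.2 (by omega)
  have h2 := Finset.card_le_card h1
  rw [Finset.card_image_of_injective _ Nat.cast_injective] at h2
  have h3 : ((Finset.range (L + 1)).filter Nat.Prime).card = Nat.primeCounting L := by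
    rw [Nat.primeCounting, Nat.primeCounting', Nat.count_eq_card_filter_range]
  rw [h3] at h2
  exact h2.trans ((Multiset.toFinset_card_le _).trans ((Polynomial.card_roots' P).trans hdeg))

/-- **the explicit inequality** -/
theorem explicit (h : Data a b k R S c d ps H) {K C L : ℕ}
    (hK : b * K + 3 * b + R ≤ k) (hC : k + R ≤ b * C) (hc : ∃ p ∈ S, c p ≠ 0)
    {p0 W : ℕ} (hW : ∀ p ∈ S, p0 ≤ p ∧ p ≤ p0 + W)
    (hprime : H < primorial L ∨ W < Nat.primeCounting L)
    (hnum : ∀ x : ℕ, 1 ≤ x → x ≤ L ^ a → 4 * (S.card : ℝ) * H * (x : ℝ) ^ C ≤ ((x : ℝ) + 1) ^ K) :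
    1 / (2 * ((L : ℝ) ^ a) ^ C) ≤ |FF S c d ps k| := by
  classical
  have h1 : ∃ l : ℕ, l.Prime ∧ l ≤ L ∧ ∑ p ∈ S, (c p : ℝ) / (l : ℝ) ^ p ≠ 0 := by
    by_contra hcon
    push Not at hcon
    rcases hprime with h2 | h2
    · exact absurd (primorial_le hc h.hc hcon) (not_le.2 h2)
    · exact absurd (primeCounting_le hc hW hcon) (not_le.2 h2)
  obtain ⟨l, hl, hlL, hne⟩ := h1
  have hla : l ^ a ≤ L ^ a := Nat.pow_le_pow_left hlL a
  have hLa : L ≤ L ^ a := Nat.le_self_pow (by have := h.ha; omega) L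
  have h2 : ∃ x, 1 ≤ x ∧ x ≤ L ^ a ∧ AA a b S c d ps k (L ^ a) x ≠ 0 :=
    ⟨l ^ a, Nat.one_le_pow _ _ hl.pos, hla, by rwa [AA_prime h.ha h.hab hl (hlL.trans hLa)]⟩
  obtain ⟨hx1, hxL, hxA⟩ := Nat.find_spec h2
  set x := Nat.find h2 with hx
  have h3 := main_low h hx1 hxL hK hC (fun y hy hyx => by
    by_contra hcon
    exact Nat.find_min h2 hyx ⟨hy, by omega, hcon⟩) hxA (hnum x hx1 hxL)
  refine le_trans ?_ h3
  have hx0 : (0 : ℝ) < x := by exact_mod_cast hx1
  refine div_le_div_of_nonneg_left zero_le_one (by positivity) ?_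
  refine mul_le_mul_of_nonneg_left ?_ (by norm_num)
  refine pow_le_pow_left₀ hx0.le ?_ _
  exact_mod_cast hxL

end

end Pool.Agent.NH24.DZ
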