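import Pool.Agent.NH24.DZ.B

/-!
# Double zeta values `ζ(p, k - p)` with `p / k` near a rational number: estimates
-/

set_option autoImplicit false

namespace Pool.Agent.NH24.DZ

open Finset Filter

/-- the double zeta value `ζ(p, q)`, the sum of `m ^ (-p) n ^ (-q)` over `m > n ≥ 1` -/
noncomputable def dz (p q : ℕ) : ℝ :=
  ∑' m : ℕ, (∑ n ∈ Finset.Ico 1 (m + 1), 1 / (n : ℝ) ^ q) / ((m + 1 : ℕ) : ℝ) ^ p

section

variable {a b k R : ℕ} {S : Finset ℕ} {c : ℕ → ℤ} {d : ℤ} {ps : ℕ} {H : ℝ}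

lemma u_bd (h : Data a b k R S c d ps H) (hk : 3 * b + R ≤ k) {p : ℕ} (hp : p ∈ S) (m : ℕ) :
    0 ≤ (∑ n ∈ Ico 1 (m + 1), 1 / (n : ℝ) ^ (k - p)) / ((m + 1 : ℕ) : ℝ) ^ p ∧
    (∑ n ∈ Ico 1 (m + 1), 1 / (n : ℝ) ^ (k - p)) / ((m + 1 : ℕ) : ℝ) ^ p ≤ 1 / ((m + 1 : ℕ) : ℝ) ^ 2 := by
  obtain ⟨h1, h2, h3⟩ := h.hS p hp
  have hm0 : (0 : ℝ) < ((m + 1 : ℕ) : ℝ) := by positivity
  refine ⟨by positivity, ?_⟩
  rw [sum_div]
  calc ∑ n ∈ Ico 1 (m + 1), 1 / (n : ℝ) ^ (k - p) / ((m + 1 : ℕ) : ℝ) ^ p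
      ≤ ∑ n ∈ Ico 1 (m + 1), 1 / ((m + 1 : ℕ) : ℝ) ^ 3 := by
        refine sum_le_sum fun n hn => ?_
        rw [mem_Ico] at hn
        have hn0 : (0 : ℝ) < n := by exact_mod_cast hn.1
        have h4 := size_le (K := 0) (y := 1) (m := m + 1) (n := n) h.ha h.hab (by omega) hn.1 h1 h2 h3
          (by omega) ((Nat.succ_le_succ (Nat.zero_le m)).trans (le_sz h.ha (by omega) hn.1))
        have h5 : ((m + 1 : ℕ) : ℝ) ^ 3 ≤ ((m + 1 : ℕ) : ℝ) ^ p * (n : ℝ) ^ (k - p) := by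
          have : (m + 1) ^ 3 ≤ (m + 1) ^ p * n ^ (k - p) := by simpa using h4
          exact_mod_cast this
        rw [div_div, mul_comm]
        exact div_le_div_of_nonneg_left zero_le_one (by positivity) h5
    _ = (m : ℝ) * (1 / ((m + 1 : ℕ) : ℝ) ^ 3) := by
        rw [sum_const, nsmul_eq_mul, Nat.card_Ico, Nat.add_sub_cancel]
    _ ≤ ((m + 1 : ℕ) : ℝ) * (1 / ((m + 1 : ℕ) : ℝ) ^ 3) := by
        refine mul_le_mul_of_nonneg_right ?_ (by positivity)
        push_cast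
        linarith
    _ = 1 / ((m + 1 : ℕ) : ℝ) ^ 2 := by
        field_simp

lemma FF_eq (h : Data a b k R S c d ps H) (hk : 3 * b + R ≤ k) : FF S c d ps k =
    ∑ p ∈ S, (c p : ℝ) * dz p (k - p) + (d : ℝ) * ∑' m : ℕ, 1 / ((m + 1 : ℕ) : ℝ) ^ k := by
  have hb : 0 < b := by have := h.hab; omega
  have h1 : ∀ m : ℕ, G S c d ps k (m + 1) =
      ∑ p ∈ S, (c p : ℝ) * ((∑ n ∈ Ico 1 (m + 1), 1 / (n : ℝ) ^ (k - p)) / ((m + 1 : ℕ) : ℝ) ^ p) +
        (d : ℝ) * (1 / ((m + 1 : ℕ) : ℝ) ^ k) := by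
    intro m
    unfold G
    have h2 : Icc 1 (m + 1) = insert (m + 1) (Ico 1 (m + 1)) := by
      ext n
      rw [mem_insert, mem_Icc, mem_Ico]
      omega
    rw [h2, sum_insert (by simp), add_comm]
    congr 1
    · unfold T
      rw [sum_comm]
      refine sum_congr rfl fun p _ => ?_
      rw [sum_div, mul_sum]
      refine sum_congr rfl fun n hn => ?_
      rw [mem_Ico] at hn
      unfold cf
      rw [if_pos hn.2]
      field_simp
    · unfold T cf
      rw [sum_eq_single ps]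
      · rw [if_neg (lt_irrefl _), if_pos rfl, ← pow_add, Nat.add_sub_cancel' (h.hS ps h.hps).1]
        ring
      · intro p _ hne
        rw [if_neg (lt_irrefl _), if_neg hne]
        simp
      · intro hps
        exact absurd h.hps hps
  have hs : ∀ p ∈ S, Summable fun m : ℕ =>
      (c p : ℝ) * ((∑ n ∈ Ico 1 (m + 1), 1 / (n : ℝ) ^ (k - p)) / ((m + 1 : ℕ) : ℝ) ^ p) := by
    intro p hp
    refine Summable.mul_left _ ?_
    exact Summable.of_nonneg_of_le (fun m => (u_bd h hk hp m).1) (fun m => (u_bd h hk hp m).2)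
      summable_inv_sq
  have hs2 : Summable fun m : ℕ => (d : ℝ) * (1 / ((m + 1 : ℕ) : ℝ) ^ k) := by
    refine Summable.mul_left _ ?_
    exact (summable_nat_add_iff 1).2 (Real.summable_one_div_nat_pow.2 (by omega))
  unfold FF dz
  rw [tsum_congr h1, Summable.tsum_add (summable_sum hs) hs2, Summable.tsum_finsetSum hs, tsum_mul_left]
  congr 1
  exact sum_congr rfl fun p _ => tsum_mul_left

end

/-- `(x + 1) ^ K ≥ 2 ^ (K / x) x ^ K` -/
lemma bern {x K : ℕ} (hx : 1 ≤ x) : (2 : ℝ) ^ (K / x) * (x : ℝ) ^ K ≤ ((x : ℝ) + 1) ^ K := by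
  have hx0 : (0 : ℝ) < x := by exact_mod_cast hx
  have h1 : (2 : ℝ) ≤ (1 + 1 / (x : ℝ)) ^ x := by
    have h2 := one_add_mul_le_pow (a := 1 / (x : ℝ)) (by
      have : 0 < 1 / (x : ℝ) := by positivity
      linarith) x
    have h3 : (x : ℝ) * (1 / (x : ℝ)) = 1 := by field_simp
    linarith
  have h4 : (2 : ℝ) ^ (K / x) ≤ (1 + 1 / (x : ℝ)) ^ K := by
    calc (2 : ℝ) ^ (K / x) ≤ ((1 + 1 / (x : ℝ)) ^ x) ^ (K / x) := pow_le_pow_left₀ (by norm_num) h1 _
      _ = (1 + 1 / (x : ℝ)) ^ (x * (K / x)) := by rw [pow_mul]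
      _ ≤ (1 + 1 / (x : ℝ)) ^ K := by
        refine pow_le_pow_right₀ ?_ (Nat.mul_div_le K x)
        have : 0 < 1 / (x : ℝ) := by positivity
        linarith
  calc (2 : ℝ) ^ (K / x) * (x : ℝ) ^ K ≤ (1 + 1 / (x : ℝ)) ^ K * (x : ℝ) ^ K :=
        mul_le_mul_of_nonneg_right h4 (by positivity)
    _ = ((x : ℝ) + 1) ^ K := by
        rw [← mul_pow]
        congr 1
        field_simp

/-- powers beat powers times the logarithm -/
lemma ev_pow {μ ν : ℝ} (h : μ < ν) (hν : 0 < ν) (A B : ℝ) {e : ℝ} (he : 0 < e) :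
    ∀ᶠ x : ℝ in atTop, A * (x ^ μ * Real.log x) + B ≤ e * x ^ ν := by
  have h1 : (fun x : ℝ => x ^ μ * Real.log x) =o[atTop] fun x => x ^ ν := by
    have h2 : (fun x : ℝ => x ^ μ * Real.log x) =o[atTop] fun x => x ^ μ * x ^ (ν - μ) :=
      (Asymptotics.isBigO_refl _ _).mul_isLittleO (isLittleO_log_rpow_atTop (by linarith))
    refine h2.congr' (Eventually.of_forall fun _ => rfl) ?_
    filter_upwards [eventually_gt_atTop 0] with x hx
    rw [← Real.rpow_add hx]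
    congr 1
    ring
  have h3 := (h1.const_mul_left A).bound (c := e / 2) (by positivity)
  have h4 := (tendsto_rpow_atTop hν).eventually (eventually_ge_atTop (2 * B / e))
  filter_upwards [h3, h4, eventually_gt_atTop 0] with x h5 h6 hx
  rw [Real.norm_eq_abs, Real.norm_eq_abs, abs_of_pos (Real.rpow_pos_of_pos hx ν)] at h5
  have h7 := le_abs_self (A * (x ^ μ * Real.log x))
  rw [div_le_iff₀ he] at h6
  nlinarith

/-- the primorial is large -/
lemma ev_primorial : ∀ᶠ L : ℕ in atTop, (2 : ℝ) ^ ((L : ℝ) / 2) ≤ primorial L := by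
  have hl2 : 0 < Real.log 2 := Real.log_pos (by norm_num)
  have h1 := ev_pow (μ := 1 / 2) (ν := 1) (by norm_num) (by norm_num) 3 (Real.log 2)
    (e := Real.log 2 / 2) (by positivity)
  filter_upwards [tendsto_natCast_atTop_atTop.eventually h1, eventually_ge_atTop 1] with L h2 hL
  have hL0 : (1 : ℝ) ≤ L := by exact_mod_cast hL
  have h3 := Chebyshev.theta_ge L
  have h4 : Chebyshev.theta (L : ℝ) = Real.log (primorial L) := by
    rw [Chebyshev.theta_eq_log_primorial, Nat.floor_natCast]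
  have hp : (0 : ℝ) < primorial L := by exact_mod_cast primorial_pos L
  rw [← Real.log_le_log_iff (by positivity) hp, Real.log_rpow (by norm_num), ← h4]
  refine le_trans ?_ h3
  have h5 : Real.log ((L : ℝ) + 1) ≤ Real.log 2 + Real.log L := by
    rw [← Real.log_mul (by norm_num) (by linarith)]
    exact Real.log_le_log (by linarith) (by linarith)
  have h6 : Real.log L ≤ (L : ℝ) ^ (1 / 2 : ℝ) * Real.log L := by
    have h7 : 1 ≤ (L : ℝ) ^ (1 / 2 : ℝ) := Real.one_le_rpow hL0 (by norm_num)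
    have h8 : 0 ≤ Real.log L := Real.log_nonneg hL0
    nlinarith
  rw [Real.rpow_one] at h2
  rw [Real.sqrt_eq_rpow]
  nlinarith

/-- there are many primes -/
lemma primeCounting_ge {L : ℕ} (h : (2 : ℝ) ^ ((L : ℝ) / 2) ≤ primorial L) :
    (L : ℝ) / 2 * Real.log 2 ≤ Nat.primeCounting L * Real.log L := by
  have h1 := Chebyshev.psi_le_primeCounting_mul_log L
  refine le_trans ?_ h1
  refine le_trans ?_ (Chebyshev.theta_le_psi _)
  rw [Chebyshev.theta_eq_log_primorial, Nat.floor_natCast]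
  have hp : (0 : ℝ) < primorial L := by exact_mod_cast primorial_pos L
  rw [← Real.log_rpow (by norm_num)]
  exact Real.log_le_log (by positivity) h

end Pool.Agent.NH24.DZ
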