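import Pool.Agent.NH24.DZ.C

/-!
# Double zeta values `ζ(p, k - p)` with `p / k` near a rational number: the asymptotic theorems
-/

set_option autoImplicit false

namespace Pool.Agent.NH24.DZ

open Finset Filter

/-- the first arguments `p ≤ k` with `|b p - a k| ≤ r` -/
noncomputable def near (a b k : ℕ) (r : ℝ) : Finset ℕ :=
  (range (k + 1)).filter fun p => |(b : ℝ) * p - a * k| ≤ r

lemma near_prop {a b k : ℕ} {r : ℝ} {p : ℕ} (hp : p ∈ near a b k r) :
    p ≤ k ∧ a * k ≤ b * p + ⌊r⌋₊ ∧ b * p ≤ a * k + ⌊r⌋₊ := by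
  unfold near at hp
  rw [mem_filter, mem_range, abs_le] at hp
  obtain ⟨h1, h2, h3⟩ := hp
  refine ⟨by omega, ?_, ?_⟩
  · by_contra hcon
    push Not at hcon
    have h4 : ((a * k - b * p : ℕ) : ℝ) ≤ r := by
      rw [Nat.cast_sub (by omega)]
      push_cast
      linarith
    have h5 := Nat.le_floor h4
    omega
  · by_contra hcon
    push Not at hcon
    have h4 : ((b * p - a * k : ℕ) : ℝ) ≤ r := by
      rw [Nat.cast_sub (by omega)]
      push_cast
      linarith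
    have h5 := Nat.le_floor h4
    omega

lemma near_width {a b k : ℕ} {r : ℝ} (hb : 1 ≤ b) :
    ∀ p ∈ near a b k r, (a * k - ⌊r⌋₊) / b ≤ p ∧ p ≤ (a * k - ⌊r⌋₊) / b + (2 * ⌊r⌋₊ + 1) := by
  intro p hp
  obtain ⟨-, h2, h3⟩ := near_prop hp
  set R := ⌊r⌋₊
  set q := (a * k - R) / b with hq
  have h4 : b * q ≤ a * k - R := Nat.mul_div_le _ _
  have h5 : a * k - R < b * q + b := by
    have := Nat.lt_mul_div_succ (a * k - R) (show 0 < b by omega)
    rw [← hq] at this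
    linarith
  constructor
  · by_contra hcon
    push Not at hcon
    have h6 : b * (p + 1) ≤ b * q := Nat.mul_le_mul_left b hcon
    have h7 : b * (p + 1) = b * p + b := by ring
    omega
  · by_contra hcon
    push Not at hcon
    have h6 : b * (q + (2 * R + 1) + 1) ≤ b * p := Nat.mul_le_mul_left b hcon
    have h7 : b * (q + (2 * R + 1) + 1) = b * q + 2 * (b * R) + 2 * b := by ring
    have h8 : R ≤ b * R := Nat.le_mul_of_pos_left R (by omega)
    omega

lemma near_card {a b k : ℕ} {r : ℝ} (hb : 1 ≤ b) : (near a b k r).card ≤ 2 * ⌊r⌋₊ + 2 := by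
  have h1 : near a b k r ⊆ Icc ((a * k - ⌊r⌋₊) / b) ((a * k - ⌊r⌋₊) / b + (2 * ⌊r⌋₊ + 1)) := by
    intro p hp
    rw [mem_Icc]
    exact near_width hb p hp
  have h2 := card_le_card h1
  rw [Nat.card_Icc] at h2
  omega

/-- **the lower bound with numerical hypotheses** -/
theorem common {a b : ℕ} (ha : 1 ≤ a) (hab : a < b) {k L : ℕ} {r H : ℝ} (c : ℕ → ℤ)
    (d : ℤ) (hc : ∃ p ∈ near a b k r, c p ≠ 0) (hcH : ∀ p ∈ near a b k r, |(c p : ℝ)| ≤ H)
    (hdH : |(d : ℝ)| ≤ H) (hk : 3 * b + ⌊r⌋₊ ≤ k)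
    (hprime : H < primorial L ∨ 2 * ⌊r⌋₊ + 1 < Nat.primeCounting L)
    (hnum : 4 * (2 * (⌊r⌋₊ : ℝ) + 2) * H * ((L : ℝ) ^ a) ^ (2 * ⌊r⌋₊ + 8) ≤
      2 ^ ((k - ⌊r⌋₊ - 3 * b) / b / L ^ a)) :
    1 / (2 * ((L : ℝ) ^ a) ^ ((k + ⌊r⌋₊) / b + 1)) ≤ |∑ p ∈ near a b k r, (c p : ℝ) * dz p (k - p) +
      (d : ℝ) * ∑' m : ℕ, 1 / ((m + 1 : ℕ) : ℝ) ^ k| := by
  obtain ⟨ps, hps, hps0⟩ := hc
  have hb : 1 ≤ b := by omega
  have hD : Data a b k ⌊r⌋₊ (near a b k r) c d ps H :=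
    ⟨ha, hab, fun p hp => near_prop hp, hps, hcH, hdH⟩
  have hH := hD.H0
  set R := ⌊r⌋₊ with hR
  set K := (k - R - 3 * b) / b with hKdef
  have hK : b * K + 3 * b + R ≤ k := by
    have := Nat.mul_div_le (k - R - 3 * b) b
    rw [← hKdef] at this
    omega
  have hK2 : k - R - 3 * b < b * K + b := by
    have := Nat.lt_mul_div_succ (k - R - 3 * b) (show 0 < b by omega)
    rw [← hKdef] at this
    linarith
  set C := (k + R) / b + 1 with hCdef
  have hC : k + R ≤ b * C := by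
    have := Nat.lt_mul_div_succ (k + R) (show 0 < b by omega)
    exact this.le
  have hCK : C ≤ K + 2 * R + 8 := by
    by_contra hcon
    push Not at hcon
    have h1 : b * (K + 2 * R + 8) ≤ b * ((k + R) / b) := Nat.mul_le_mul_left b (by omega)
    have h2 := Nat.mul_div_le (k + R) b
    have h3 : b * (K + 2 * R + 8) = b * K + 2 * (b * R) + 8 * b := by ring
    have h4 : R ≤ b * R := Nat.le_mul_of_pos_left R (by omega)
    omega
  rw [← FF_eq hD hk]
  refine explicit hD hK hC ⟨ps, hps, hps0⟩ (near_width hb) hprime fun x hx1 hxL => ?_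
  have hx0 : (1 : ℝ) ≤ x := by exact_mod_cast hx1
  have hxL' : (x : ℝ) ≤ (L : ℝ) ^ a := by exact_mod_cast hxL
  have hcard : ((near a b k r).card : ℝ) ≤ 2 * (R : ℝ) + 2 := by exact_mod_cast near_card hb
  calc 4 * ((near a b k r).card : ℝ) * H * (x : ℝ) ^ C
      ≤ 4 * (2 * (R : ℝ) + 2) * H * ((x : ℝ) ^ (2 * R + 8) * (x : ℝ) ^ K) := by
        refine mul_le_mul (mul_le_mul_of_nonneg_right (by linarith) hH) ?_ (by positivity)
          (by positivity)
        rw [← pow_add]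
        exact pow_le_pow_right₀ hx0 (by omega)
    _ ≤ 4 * (2 * (R : ℝ) + 2) * H * (((L : ℝ) ^ a) ^ (2 * R + 8) * (x : ℝ) ^ K) := by
        refine mul_le_mul_of_nonneg_left ?_ (by positivity)
        exact mul_le_mul_of_nonneg_right (pow_le_pow_left₀ (by linarith) hxL' _) (by positivity)
    _ = (4 * (2 * (R : ℝ) + 2) * H * ((L : ℝ) ^ a) ^ (2 * R + 8)) * (x : ℝ) ^ K := by ring
    _ ≤ 2 ^ (K / L ^ a) * (x : ℝ) ^ K := mul_le_mul_of_nonneg_right hnum (by positivity)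
    _ ≤ 2 ^ (K / x) * (x : ℝ) ^ K := by
        refine mul_le_mul_of_nonneg_right ?_ (by positivity)
        exact pow_le_pow_right₀ (by norm_num) (Nat.div_le_div_left hxL hx1)
    _ ≤ ((x : ℝ) + 1) ^ K := bern hx1

/-- the numerical hypothesis in logarithmic form -/
lemma num_of {a b k R L : ℕ} {H X : ℝ} (hb : 1 ≤ b) (hk : R + 4 * b + 1 ≤ k) (hL : 1 ≤ L)
    (hH : 1 ≤ H) (hX : ((L : ℝ) ^ a) ≤ X)
    (h : Real.log 4 + Real.log (2 * (R : ℝ) + 2) + Real.log H + (2 * (R : ℝ) + 8) * Real.log X +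
      2 * Real.log 2 ≤ ((k : ℝ) - R - 4 * b) / b / X * Real.log 2) :
    4 * (2 * (R : ℝ) + 2) * H * ((L : ℝ) ^ a) ^ (2 * R + 8) ≤ 2 ^ ((k - R - 3 * b) / b / L ^ a) := by
  have hl2 : 0 < Real.log 2 := Real.log_pos (by norm_num)
  have hL0 : (1 : ℝ) ≤ L := by exact_mod_cast hL
  have hLa : (1 : ℝ) ≤ (L : ℝ) ^ a := one_le_pow₀ hL0
  have hX0 : 0 < X := by linarith
  have hb0 : (0 : ℝ) < b := by exact_mod_cast hb
  have hH0 : 0 < H := by linarith
  rw [← Real.log_le_log_iff (by positivity) (by positivity), Real.log_mul (by positivity)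
    (by positivity), Real.log_mul (by positivity) (by positivity), Real.log_mul (by norm_num)
    (by positivity), Real.log_pow ((L : ℝ) ^ a) (2 * R + 8), Real.log_pow (2 : ℝ)]
  have h1 : Real.log ((L : ℝ) ^ a) ≤ Real.log X := Real.log_le_log (by linarith) hX
  have h2 : ((2 * R + 8 : ℕ) : ℝ) * Real.log ((L : ℝ) ^ a) ≤ (2 * (R : ℝ) + 8) * Real.log X := by
    push_cast
    exact mul_le_mul_of_nonneg_left h1 (by positivity)
  set K := (k - R - 3 * b) / b with hKdef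
  have hK2 : k < b * K + b + R + 3 * b := by
    have := Nat.lt_mul_div_succ (k - R - 3 * b) (show 0 < b by omega)
    rw [← hKdef] at this
    have h3 : b * (K + 1) = b * K + b := by ring
    omega
  have h3 : ((k : ℝ) - R - 4 * b) / b ≤ K := by
    rw [div_le_iff₀ hb0]
    have : (k : ℝ) < b * K + b + R + 3 * b := by exact_mod_cast hK2
    linarith
  have h4 : (K : ℝ) / X - 1 ≤ ((K / L ^ a : ℕ) : ℝ) := by
    have h5 : (K : ℝ) < (L : ℝ) ^ a * ((K / L ^ a : ℕ) : ℝ) + (L : ℝ) ^ a := by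
      have := Nat.lt_mul_div_succ K (show 0 < L ^ a by positivity)
      have h6 : L ^ a * (K / L ^ a + 1) = L ^ a * (K / L ^ a) + L ^ a := by ring
      rw [h6] at this
      exact_mod_cast this
    have h7 : (K : ℝ) / X ≤ (K : ℝ) / (L : ℝ) ^ a :=
      div_le_div_of_nonneg_left (Nat.cast_nonneg K) (by linarith) hX
    have h8 : (K : ℝ) / (L : ℝ) ^ a ≤ ((K / L ^ a : ℕ) : ℝ) + 1 := by
      rw [div_le_iff₀ (by linarith)]
      linarith
    linarith
  have h5 : ((k : ℝ) - R - 4 * b) / b / X * Real.log 2 ≤ (((K / L ^ a : ℕ) : ℝ) + 1) * Real.log 2 := by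
    refine mul_le_mul_of_nonneg_right ?_ hl2.le
    have h6 : ((k : ℝ) - R - 4 * b) / b / X ≤ (K : ℝ) / X := div_le_div_of_nonneg_right h3 hX0.le
    linarith
  linarith

end Pool.Agent.NH24.DZ
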