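import Pool.Agent.NH24.DZ.D

/-!
# Double zeta values `ζ(p, k - p)` with `p / k` near a rational number: powers
-/

set_option autoImplicit false

namespace Pool.Agent.NH24.DZ

open Finset Filter

lemma ev_nat {p : ℝ → Prop} (h : ∀ᶠ x : ℝ in atTop, p x) : ∀ᶠ k : ℕ in atTop, p k :=
  tendsto_natCast_atTop_atTop.eventually h

theorem powers {a b : ℕ} (ha : 1 ≤ a) (hab : a < b) {t g e : ℝ} (ht : 0 < t) (hg : 0 < g)
    (h : a * min t g + max t g < 1) (he : a * min t g < b * e) : ∃ k0 : ℕ, ∀ k : ℕ, k0 ≤ k →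
      ∀ (c : ℕ → ℤ) (d : ℤ), (∃ p ∈ near a b k ((k : ℝ) ^ t), c p ≠ 0) →
      (∀ p ∈ near a b k ((k : ℝ) ^ t), |(c p : ℝ)| ≤ (2 : ℝ) ^ ((k : ℝ) ^ g)) →
      |(d : ℝ)| ≤ (2 : ℝ) ^ ((k : ℝ) ^ g) →
      ((k : ℝ) ^ (e * k))⁻¹ < |∑ p ∈ near a b k ((k : ℝ) ^ t), (c p : ℝ) * dz p (k - p) +
        (d : ℝ) * ∑' m : ℕ, 1 / ((m + 1 : ℕ) : ℝ) ^ k| := by
  have hl2 : 0 < Real.log 2 := Real.log_pos (by norm_num)
  have ha1 : (1 : ℝ) ≤ a := by exact_mod_cast ha
  have hb1 : (1 : ℝ) < b := by exact_mod_cast (lt_of_le_of_lt ha hab)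
  have hb0 : (0 : ℝ) < b := by linarith
  have hb : 1 ≤ b := by omega
  obtain ⟨m, hm⟩ : ∃ m, m = min t g := ⟨_, rfl⟩
  obtain ⟨M, hM⟩ : ∃ M, M = max t g := ⟨_, rfl⟩
  rw [← hm] at h he
  rw [← hM] at h
  have hm0 : 0 < m := by
    rw [hm]
    exact lt_min ht hg
  have htM : t ≤ M := by rw [hM]; exact le_max_left _ _
  have hgM : g ≤ M := by rw [hM]; exact le_max_right _ _
  -- the exponent of `L`
  obtain ⟨s, hs1, hs2⟩ : ∃ s, m < s ∧ s < min ((1 - M) / a) (b * e / a) := by
    refine exists_between (lt_min ?_ ?_)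
    · rw [lt_div_iff₀ (by linarith)]
      linarith
    · rw [lt_div_iff₀ (by linarith)]
      linarith
  rw [lt_min_iff, lt_div_iff₀ (by linarith), lt_div_iff₀ (by linarith)] at hs2
  obtain ⟨hs2, hs3⟩ := hs2
  have hs0 : 0 < s := hm0.trans hs1
  have has : 0 < a * s := by positivity
  have hM0 : 0 < M := lt_of_lt_of_le ht htM
  have hM1 : M < 1 := by
    have : 0 < s * a := by positivity
    linarith
  have ht1 : t < 1 := lt_of_le_of_lt htM hM1
  have hs11 : s < 1 := by
    have : s ≤ s * a := le_mul_of_one_le_right hs0.le ha1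
    linarith
  -- eventual inequalities
  have E1 := ev_nat (ev_pow (μ := t) (ν := 1) ht1 one_pos 1 (4 * b + 1) (e := 1 / 2) (by norm_num))
  have E2 := ev_nat (ev_pow (μ := M) (ν := 1 - a * s) (by linarith) (by linarith) (5 + 10 * a)
    (2 * Real.log 2) (e := Real.log 2 / (2 * b)) (by positivity))
  have E3 := ev_nat (ev_pow (μ := m) (ν := s) hs1 hs0 (3 * 2 / Real.log 2 + 2) 2 (e := 1) one_pos)
  have E4 := ev_nat (ev_pow (μ := t) (ν := 1) ht1 one_pos (a * s / b) (2 + a * s)
    (e := (e - a * s / b) / 2) (by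
      have : 0 < e - a * s / b := by
        rw [sub_pos, div_lt_iff₀ hb0]
        linarith
      linarith))
  obtain ⟨L0, hL0⟩ := eventually_atTop.1 ev_primorial
  have E5 : ∀ᶠ k : ℕ in atTop, ((L0 : ℝ) + 2) ≤ (k : ℝ) ^ s :=
    ev_nat ((tendsto_rpow_atTop hs0).eventually (eventually_ge_atTop _))
  obtain ⟨k0, hk0⟩ := eventually_atTop.1 (E1.and (E2.and (E3.and (E4.and (E5.and (eventually_ge_atTop 3))))))
  refine ⟨k0, fun k hk c d hc hcH hdH => ?_⟩
  obtain ⟨F1, F2, F3, F4, F5, hk3⟩ := hk0 k hk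
  have hk3' : (3 : ℝ) ≤ k := by exact_mod_cast hk3
  have hkp : (0 : ℝ) < k := by linarith
  have hk1 : (1 : ℝ) ≤ k := by linarith
  have hlog : 1 ≤ Real.log k := by
    rw [← Real.log_exp 1]
    exact Real.log_le_log (Real.exp_pos 1) (by linarith [Real.exp_one_lt_d9])
  rw [Real.rpow_one] at F1 F4
  obtain ⟨y, hy⟩ : ∃ y, y = (k : ℝ) ^ t := ⟨_, rfl⟩
  obtain ⟨R, hR⟩ : ∃ R, R = ⌊y⌋₊ := ⟨_, rfl⟩
  obtain ⟨L, hL⟩ : ∃ L, L = ⌊(k : ℝ) ^ s⌋₊ := ⟨_, rfl⟩
  have hy1 : 1 ≤ y := by
    rw [hy]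
    exact Real.one_le_rpow hk1 ht.le
  have hRy : (R : ℝ) ≤ y := by
    rw [hR]
    exact Nat.floor_le (by linarith)
  have hks : 1 ≤ (k : ℝ) ^ s := Real.one_le_rpow hk1 hs0.le
  have hLs : (L : ℝ) ≤ (k : ℝ) ^ s := by
    rw [hL]
    exact Nat.floor_le (by linarith)
  have hLs' : (k : ℝ) ^ s < L + 1 := by
    rw [hL]
    exact Nat.lt_floor_add_one _
  have hLL0 : L0 < L := by
    have h1 : (L0 : ℝ) < L := by linarith
    exact_mod_cast h1
  have hL1 : 1 ≤ L := by omega
  have hL1' : (1 : ℝ) ≤ L := by exact_mod_cast hL1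
  have hyM : y ≤ (k : ℝ) ^ M := by
    rw [hy]
    exact Real.rpow_le_rpow_of_exponent_le hk1 htM
  have hgM' : (k : ℝ) ^ g ≤ (k : ℝ) ^ M := Real.rpow_le_rpow_of_exponent_le hk1 hgM
  have hkM : 1 ≤ (k : ℝ) ^ M := Real.one_le_rpow hk1 hM0.le
  have hlogk0 : 0 < Real.log k := by linarith
  have hlog2k : Real.log 2 ≤ Real.log k := Real.log_le_log (by norm_num) (by linarith)
  have hlog21 : Real.log 2 < 1 := by linarith [Real.log_two_lt_d9]
  have hlog4 : Real.log 4 = 2 * Real.log 2 := by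
    rw [show (4 : ℝ) = 2 ^ 2 by norm_num, Real.log_pow]
    norm_num
  have hF1 : y + (4 * b + 1) ≤ k / 2 := by
    rw [← hy] at F1
    have : y ≤ y * Real.log k := le_mul_of_one_le_right (by linarith) hlog
    linarith
  have hkR : R + 4 * b + 1 ≤ k := by
    have h1 : (R : ℝ) + 4 * b + 1 ≤ k := by linarith
    exact_mod_cast h1
  have hLlog : Real.log L ≤ s * Real.log k := by
    rw [← Real.log_rpow hkp]
    exact Real.log_le_log (by linarith) hLs
  -- the powers of `L`
  have hX : ((L : ℝ) ^ a) ≤ (k : ℝ) ^ (a * s) := by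
    rw [mul_comm, Real.rpow_mul hkp.le, Real.rpow_natCast]
    exact pow_le_pow_left₀ (by linarith) hLs _
  have hnum : 4 * (2 * (R : ℝ) + 2) * (2 : ℝ) ^ ((k : ℝ) ^ g) * ((L : ℝ) ^ a) ^ (2 * R + 8) ≤
      2 ^ ((k - R - 3 * b) / b / L ^ a) := by
    refine num_of hb hkR hL1 (Real.one_le_rpow (by norm_num) (by positivity)) hX ?_
    rw [Real.log_rpow (by norm_num), Real.log_rpow hkp]
    have h1 : Real.log (2 * (R : ℝ) + 2) ≤ 2 * Real.log 2 + Real.log k := by
      rw [← hlog4, ← Real.log_mul (by norm_num) (by linarith)]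
      refine Real.log_le_log (by positivity) ?_
      have : y ≤ k := by linarith
      linarith
    have h2 : (2 * (R : ℝ) + 8) * (a * s * Real.log k) ≤ 10 * a * ((k : ℝ) ^ M * Real.log k) := by
      have h3 : (2 * (R : ℝ) + 8) ≤ 10 * (k : ℝ) ^ M := by linarith
      have h4 : a * s * Real.log k ≤ a * Real.log k := by
        have : a * s ≤ a := mul_le_of_le_one_right (by linarith) hs11.le
        exact mul_le_mul_of_nonneg_right this hlogk0.le
      calc (2 * (R : ℝ) + 8) * (a * s * Real.log k) ≤ (10 * (k : ℝ) ^ M) * (a * Real.log k) :=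
            mul_le_mul h3 h4 (by positivity) (by positivity)
        _ = _ := by ring
    have h3 : (k : ℝ) ^ (1 - a * s) / (2 * b) ≤ ((k : ℝ) - R - 4 * b) / b / (k : ℝ) ^ (a * s) := by
      rw [div_div, div_le_div_iff₀ (by positivity) (by positivity)]
      have h4 : (k : ℝ) ^ (1 - a * s) * (k : ℝ) ^ (a * s) = k := by
        rw [← Real.rpow_add hkp]
        simp
      calc (k : ℝ) ^ (1 - a * s) * (b * (k : ℝ) ^ (a * s)) =
            b * ((k : ℝ) ^ (1 - a * s) * (k : ℝ) ^ (a * s)) := by ring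
        _ = b * k := by rw [h4]
        _ = (k : ℝ) / 2 * (2 * b) := by ring
        _ ≤ ((k : ℝ) - R - 4 * b) * (2 * b) :=
          mul_le_mul_of_nonneg_right (by linarith) (by positivity)
    have h5 : Real.log 2 / (2 * b) * (k : ℝ) ^ (1 - a * s) ≤
        ((k : ℝ) - R - 4 * b) / b / (k : ℝ) ^ (a * s) * Real.log 2 := by
      calc Real.log 2 / (2 * b) * (k : ℝ) ^ (1 - a * s) =
            (k : ℝ) ^ (1 - a * s) / (2 * b) * Real.log 2 := by ring
        _ ≤ _ := mul_le_mul_of_nonneg_right h3 hl2.le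
    have h6 : Real.log k ≤ (k : ℝ) ^ M * Real.log k := le_mul_of_one_le_left hlogk0.le hkM
    have h7 : (k : ℝ) ^ g * Real.log 2 ≤ (k : ℝ) ^ M * Real.log k :=
      mul_le_mul hgM' hlog2k hl2.le (by positivity)
    have h8 : 4 * Real.log 2 ≤ 3 * ((k : ℝ) ^ M * Real.log k) := by
      have := Real.log_two_lt_d9
      linarith
    rw [hlog4]
    linarith
  -- primes
  have hprim := hL0 L hLL0.le
  have hprime : (2 : ℝ) ^ ((k : ℝ) ^ g) < primorial L ∨ 2 * R + 1 < Nat.primeCounting L := by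
    have h9 : (3 * 2 / Real.log 2 + 2) * (k : ℝ) ^ m + 2 ≤ (k : ℝ) ^ s := by
      have h10 : (3 * 2 / Real.log 2 + 2) * (k : ℝ) ^ m ≤
          (3 * 2 / Real.log 2 + 2) * ((k : ℝ) ^ m * Real.log k) := by
        refine mul_le_mul_of_nonneg_left ?_ (by positivity)
        exact le_mul_of_one_le_right (by positivity) hlog
      linarith
    rcases le_total g t with hgt | hgt
    · left
      refine lt_of_lt_of_le ?_ hprim
      refine Real.rpow_lt_rpow_of_exponent_lt (by norm_num) ?_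
      have h8 : m = g := by rw [hm]; exact min_eq_right hgt
      rw [h8] at h9
      have h11 : 0 < 3 * 2 / Real.log 2 * (k : ℝ) ^ g := by positivity
      linarith
    · right
      by_contra hcon
      push Not at hcon
      have h8 : m = t := by rw [hm]; exact min_eq_left hgt
      rw [h8, ← hy] at F3
      have h10 := primeCounting_ge hprim
      have h11 : (Nat.primeCounting L : ℝ) ≤ 3 * y := by
        have : (Nat.primeCounting L : ℝ) ≤ 2 * (R : ℝ) + 1 := by exact_mod_cast hcon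
        linarith
      have h12 : (Nat.primeCounting L : ℝ) * Real.log L ≤ 3 * y * Real.log k := by
        refine mul_le_mul h11 (hLlog.trans ?_) (Real.log_nonneg hL1') (by positivity)
        exact mul_le_of_le_one_left hlogk0.le hs11.le
      have h13 : (k : ℝ) ^ s - 1 < L := by linarith
      have h14 : ((k : ℝ) ^ s - 1) / 2 * Real.log 2 < 3 * y * Real.log k := by
        have : ((k : ℝ) ^ s - 1) / 2 * Real.log 2 < (L : ℝ) / 2 * Real.log 2 :=
          mul_lt_mul_of_pos_right (by linarith) hl2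
        linarith
      have h15 : (k : ℝ) ^ s - 1 < 3 * 2 / Real.log 2 * (y * Real.log k) := by
        have : (k : ℝ) ^ s - 1 < 3 * y * Real.log k * 2 / Real.log 2 := by
          rw [lt_div_iff₀ hl2]
          linarith
        calc (k : ℝ) ^ s - 1 < 3 * y * Real.log k * 2 / Real.log 2 := this
          _ = _ := by ring
      have h16 : 0 < y * Real.log k := by positivity
      linarith
  -- the conclusion
  have hmain := common ha hab c d hc hcH hdH (by rw [← hy, ← hR]; omega) (by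
    rw [← hy, ← hR]
    exact hprime) (by
    rw [← hy, ← hR]
    exact hnum)
  refine lt_of_lt_of_le ?_ hmain
  rw [← hy, ← hR, ← one_div]
  refine one_div_lt_one_div_of_lt (by positivity) ?_
  rw [← Real.log_lt_log_iff (by positivity) (by positivity), Real.log_rpow hkp,
    Real.log_mul (by norm_num) (by positivity), Real.log_pow, Real.log_pow]
  have hC : (((k + R) / b + 1 : ℕ) : ℝ) ≤ ((k : ℝ) + y) / b + 1 := by
    push_cast
    have h1 : (((k + R) / b : ℕ) : ℝ) ≤ ((k + R : ℕ) : ℝ) / b := Nat.cast_div_le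
    push_cast at h1
    have h2 : ((k : ℝ) + R) / b ≤ ((k : ℝ) + y) / b := div_le_div_of_nonneg_right (by linarith) hb0.le
    linarith
  have h1 : (((k + R) / b + 1 : ℕ) : ℝ) * (a * Real.log L) ≤
      (((k : ℝ) + y) / b + 1) * (a * (s * Real.log k)) := by
    refine mul_le_mul hC ?_ (mul_nonneg (by linarith) (Real.log_nonneg hL1')) (by positivity)
    exact mul_le_mul_of_nonneg_left hLlog (by linarith)
  have h2 : Real.log 2 + (((k : ℝ) + y) / b + 1) * (a * (s * Real.log k)) ≤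
      (1 + (((k : ℝ) + y) / b + 1) * (a * s)) * Real.log k := by
    have h3 : (((k : ℝ) + y) / b + 1) * (a * (s * Real.log k)) =
        (((k : ℝ) + y) / b + 1) * (a * s) * Real.log k := by ring
    rw [h3]
    linarith
  have h3 : 1 + (((k : ℝ) + y) / b + 1) * (a * s) < e * k := by
    rw [← hy] at F4
    have h4 : a * s / b * y ≤ a * s / b * (y * Real.log k) := by
      refine mul_le_mul_of_nonneg_left ?_ (by positivity)
      exact le_mul_of_one_le_right (by linarith) hlog
    have h5 : (((k : ℝ) + y) / b + 1) * (a * s) = a * s / b * k + a * s / b * y + a * s := by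
      field_simp
    have h6 : 0 < e - a * s / b := by
      rw [sub_pos, div_lt_iff₀ hb0]
      linarith
    have h7 : 0 < (e - a * s / b) * k := mul_pos h6 hkp
    rw [h5]
    linarith
  calc Real.log 2 + (((k + R) / b + 1 : ℕ) : ℝ) * (a * Real.log L) ≤
        (1 + (((k : ℝ) + y) / b + 1) * (a * s)) * Real.log k := by linarith
    _ < e * k * Real.log k := mul_lt_mul_of_pos_right h3 hlogk0

end Pool.Agent.NH24.DZ
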