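import Pool.Agent.NH24.DZ.E

/-!
# Double zeta values `ζ(p, k - p)` with `p / k` near a rational number: bounded coefficients
-/

set_option autoImplicit false

namespace Pool.Agent.NH24.DZ

open Finset Filter

theorem linear {a b : ℕ} (ha : 1 ≤ a) (hab : a < b) (H : ℝ) : ∃ δ B : ℝ, 0 < δ ∧ 1 < B ∧ ∃ k0 : ℕ,
      ∀ k : ℕ, k0 ≤ k → ∀ (c : ℕ → ℤ) (d : ℤ), (∃ p ∈ near a b k (δ * k), c p ≠ 0) →
      (∀ p ∈ near a b k (δ * k), |(c p : ℝ)| ≤ H) → |(d : ℝ)| ≤ H →
      (B ^ k)⁻¹ < |∑ p ∈ near a b k (δ * k), (c p : ℝ) * dz p (k - p) +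
        (d : ℝ) * ∑' m : ℕ, 1 / ((m + 1 : ℕ) : ℝ) ^ k| := by
  have hl2 : 0 < Real.log 2 := Real.log_pos (by norm_num)
  have hb1 : (1 : ℝ) < b := by exact_mod_cast (lt_of_le_of_lt ha hab)
  have hb0 : (0 : ℝ) < b := by linarith
  have hb : 1 ≤ b := by omega
  obtain ⟨H', hH'⟩ : ∃ H', H' = max H 1 := ⟨_, rfl⟩
  have hHH : H ≤ H' := by rw [hH']; exact le_max_left _ _
  have hH1 : 1 ≤ H' := by rw [hH']; exact le_max_right _ _
  -- the bound for the primes
  have h1 : ∀ᶠ L : ℕ in atTop, H' < (2 : ℝ) ^ ((L : ℝ) / 2) := by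
    have h2 : Tendsto (fun L : ℕ => (2 : ℝ) ^ ((L : ℝ) / 2)) atTop atTop := by
      have h3 : Tendsto (fun L : ℕ => (L : ℝ) / 2) atTop atTop :=
        tendsto_natCast_atTop_atTop.atTop_div_const (by norm_num)
      exact (tendsto_rpow_atTop_of_base_gt_one 2 (by norm_num)).comp h3
    exact h2.eventually_gt_atTop _
  obtain ⟨L, hL1, hL2, hL3⟩ := (h1.and (ev_primorial.and (eventually_ge_atTop 1))).exists
  have hprime : H' < primorial L := lt_of_lt_of_le hL1 hL2
  have hL0 : (1 : ℝ) ≤ L := by exact_mod_cast hL3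
  obtain ⟨X, hX⟩ : ∃ X, X = (L : ℝ) ^ a := ⟨_, rfl⟩
  have hX1 : 1 ≤ X := by
    rw [hX]
    exact one_le_pow₀ hL0
  have hX0 : 0 < X := by linarith
  have hlX : 0 ≤ Real.log X := Real.log_nonneg hX1
  obtain ⟨δ, hδ⟩ : ∃ δ, δ = Real.log 2 / (8 * b * X * (Real.log X + 1)) := ⟨_, rfl⟩
  have hδ0 : 0 < δ := by
    rw [hδ]
    positivity
  have hδ1 : δ ≤ 1 / 8 := by
    rw [hδ, div_le_div_iff₀ (by positivity) (by norm_num)]
    have h2 : 1 ≤ b * X := by nlinarith
    have h3 : 1 ≤ b * X * (Real.log X + 1) := by nlinarith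
    have := Real.log_two_lt_d9
    linarith
  have hδ2 : 2 * δ * Real.log X ≤ Real.log 2 / (4 * b * X) := by
    have h2 : 2 * δ * (Real.log X + 1) = Real.log 2 / (4 * b * X) := by
      rw [hδ]
      field_simp
      norm_num
    rw [← h2]
    nlinarith
  obtain ⟨A, hA⟩ : ∃ A, A = 6 * Real.log 2 + Real.log H' + 8 * Real.log X + (4 * b + 1) := ⟨_, rfl⟩
  have E1 := ev_nat (ev_pow (μ := 0) (ν := 1) one_pos one_pos 1 A (e := Real.log 2 / (4 * b * X))
    (by positivity))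
  obtain ⟨k0, hk0⟩ := eventually_atTop.1 (E1.and (eventually_ge_atTop (16 * b + 16)))
  refine ⟨δ, 4 * X ^ 3, hδ0, by nlinarith [one_le_pow₀ (n := 3) hX1], k0, fun k hk c d hc hcH hdH => ?_⟩
  obtain ⟨F1, hk16⟩ := hk0 k hk
  have hk3' : (16 : ℝ) * b + 16 ≤ k := by exact_mod_cast hk16
  have hkp : (0 : ℝ) < k := by linarith
  have hlogk0 : 0 ≤ Real.log k := Real.log_nonneg (by linarith)
  rw [Real.rpow_zero, Real.rpow_one, one_mul, one_mul] at F1
  obtain ⟨R, hR⟩ : ∃ R, R = ⌊δ * (k : ℝ)⌋₊ := ⟨_, rfl⟩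
  have hRy : (R : ℝ) ≤ δ * k := by
    rw [hR]
    exact Nat.floor_le (by positivity)
  have hR8 : (R : ℝ) ≤ k / 8 := by
    have : δ * k ≤ 1 / 8 * k := mul_le_mul_of_nonneg_right hδ1 hkp.le
    linarith
  have hkR : R + 4 * b + 1 ≤ k := by
    have h1 : (R : ℝ) + 4 * b + 1 ≤ k := by linarith
    exact_mod_cast h1
  have hlog4 : Real.log 4 = 2 * Real.log 2 := by
    rw [show (4 : ℝ) = 2 ^ 2 by norm_num, Real.log_pow]
    norm_num
  have hnum : 4 * (2 * (R : ℝ) + 2) * H' * ((L : ℝ) ^ a) ^ (2 * R + 8) ≤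
      2 ^ ((k - R - 3 * b) / b / L ^ a) := by
    refine num_of hb hkR hL3 hH1 (le_of_eq hX.symm) ?_
    have h1 : Real.log (2 * (R : ℝ) + 2) ≤ 2 * Real.log 2 + Real.log k := by
      rw [← hlog4, ← Real.log_mul (by norm_num) (by linarith)]
      exact Real.log_le_log (by positivity) (by linarith)
    have h2 : (2 * (R : ℝ) + 8) * Real.log X ≤ Real.log 2 / (4 * b * X) * k + 8 * Real.log X := by
      have h3 : 2 * (R : ℝ) * Real.log X ≤ 2 * (δ * k) * Real.log X :=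
        mul_le_mul_of_nonneg_right (by linarith) hlX
      have h4 : 2 * (δ * k) * Real.log X = (2 * δ * Real.log X) * k := by ring
      have h5 : (2 * δ * Real.log X) * k ≤ Real.log 2 / (4 * b * X) * k :=
        mul_le_mul_of_nonneg_right hδ2 hkp.le
      linarith
    have h3 : Real.log 2 / (4 * b * X) * k + Real.log 2 / (4 * b * X) * k ≤
        ((k : ℝ) - R - 4 * b) / b / X * Real.log 2 := by
      have h4 : Real.log 2 / (4 * b * X) * k + Real.log 2 / (4 * b * X) * k =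
          ((k : ℝ) / 2) / b / X * Real.log 2 := by
        field_simp
        norm_num
      rw [h4]
      refine mul_le_mul_of_nonneg_right ?_ hl2.le
      refine div_le_div_of_nonneg_right (div_le_div_of_nonneg_right ?_ hb0.le) hX0.le
      linarith
    rw [hlog4]
    linarith
  have hmain := common ha hab c d hc (fun p hp => (hcH p hp).trans hHH) (hdH.trans hHH) (by
    rw [← hR]
    omega) (by
    rw [← hR]
    exact Or.inl hprime) (by
    rw [← hR]
    exact hnum)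
  refine lt_of_lt_of_le ?_ hmain
  rw [← hR, ← hX, ← one_div]
  refine one_div_lt_one_div_of_lt (by positivity) ?_
  have hC : (k + R) / b + 1 ≤ 3 * k := by
    have h1 : (k + R) / b ≤ k + R := Nat.div_le_self _ _
    omega
  calc 2 * X ^ ((k + R) / b + 1) ≤ 2 * X ^ (3 * k) :=
        mul_le_mul_of_nonneg_left (pow_le_pow_right₀ hX1 hC) (by norm_num)
    _ < 4 ^ k * X ^ (3 * k) := by
        refine mul_lt_mul_of_pos_right ?_ (by positivity)
        calc (2 : ℝ) < 4 ^ 1 := by norm_num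
          _ ≤ 4 ^ k := pow_le_pow_right₀ (by norm_num) (by omega)
    _ = (4 * X ^ 3) ^ k := by rw [mul_pow, ← pow_mul]

end Pool.Agent.NH24.DZ
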